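import Mathlib

/-!
# Fixed points of antimorphisms of regular self-complementary graphs

For every `k ≥ 2` there is a regular self-complementary graph `G` on `4 k + 1` vertices with a vertex `v` which
lies in exactly `k (k - 1)` triangles, but which is not fixed by any isomorphism from `G` to its
complement.

The vertex `v` has a neighbour `x` such that `v` and `x` have no common neighbour, but every vertex `y ≠ v` which
is not a neighbour of `v` has a common non-neighbour with `v`. So no isomorphism from `G` to its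
complement fixes `v`. The graphs are constructed by induction: four new vertices are added in each step. The
base cases have `9` and `13` vertices.
-/

set_option autoImplicit false

namespace Pool.Agent.Results.MP_b6be33_co.EveryOrder

open Finset

/-- The data of the construction needed for the result. -/
structure Core (k : ℕ) (V : Type) [Fintype V] [DecidableEq V] where
  A : V → V → Bool
  P : Equiv.Perm V
  v : V
  x : V
  symm : ∀ a b, A a b = A b a
  irr : ∀ a, A a a = false
  anti : ∀ a b, a ≠ b → A (P a) (P b) = !(A a b)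
  card : Fintype.card V = 4 * k + 1
  reg : ∀ a, ∑ b, (A a b).toNat = 2 * k
  tri : ∑ a, ∑ b, (A v a && (A v b && A a b)).toNat = 2 * (k * (k - 1))
  adj : A v x = true
  noc : ∀ z, A v z = true → A x z = false
  coc : ∀ y, y ≠ v → A v y = false → ∃ z, z ≠ v ∧ z ≠ y ∧ A v z = false ∧ A y z = false

/-- The data of the construction needed for the induction. -/
structure Cfg (k : ℕ) (V : Type) [Fintype V] [DecidableEq V] extends Core k V where
  Y : Fin 4 → V → Bool
  rot : ∀ i a, Y (i + 1) (P a) = Y i a
  cardY : ∀ i, ∑ a, (Y i a).toNat = 2 * k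
  bal : ∀ a, (Y 0 a).toNat + (Y 2 a).toNat = (Y 1 a).toNat + (Y 3 a).toNat
  hv : ∀ i, Y i v = false
  hx : ∀ i, Y i x = true
  nz : ∃ z, z ≠ v ∧ A v z = false ∧ Y 0 z = false ∧ Y 2 z = false
  dc : ∑ a, (A v a && Y 1 a).toNat + ∑ a, (A v a && Y 3 a).toNat = 2 * k

/-- the path `1 - 0 - 2 - 3` -/
def B (i j : Fin 4) : Bool :=
  ![![false, true, true, false], ![true, false, false, false], ![true, false, false, true],
    ![false, false, true, false]] i j

/-- the parity -/
def ev (i : Fin 4) : Bool := ![true, false, true, false] i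

/-- the adjacency of new and old vertices -/
def link {V : Type} (Y : Fin 4 → V → Bool) (i : Fin 4) (a : V) : Bool :=
  bif ev i then Y i a else !(Y i a)

/-- the new adjacency -/
def newA {V : Type} (A : V → V → Bool) (Y : Fin 4 → V → Bool) : V ⊕ Fin 4 → V ⊕ Fin 4 → Bool
  | Sum.inl a, Sum.inl b => A a b
  | Sum.inl a, Sum.inr j => link Y j a
  | Sum.inr i, Sum.inl b => link Y i b
  | Sum.inr i, Sum.inr j => B i j

/-- membership in the new sets, for the new vertices -/
def inY (i j : Fin 4) : Bool := decide (j = i ∨ j = i + 1)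

/-- the new sets -/
def newY {V : Type} (Y : Fin 4 → V → Bool) (i : Fin 4) : V ⊕ Fin 4 → Bool
  | Sum.inl a => Y i a
  | Sum.inr j => inY i j

theorem newA_ll {V : Type} (A : V → V → Bool) (Y : Fin 4 → V → Bool) (a b : V) :
    newA A Y (Sum.inl a) (Sum.inl b) = A a b := rfl

theorem newA_lr {V : Type} (A : V → V → Bool) (Y : Fin 4 → V → Bool) (a : V) (j : Fin 4) :
    newA A Y (Sum.inl a) (Sum.inr j) = link Y j a := rfl

theorem newA_rl {V : Type} (A : V → V → Bool) (Y : Fin 4 → V → Bool) (i : Fin 4) (b : V) :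
    newA A Y (Sum.inr i) (Sum.inl b) = link Y i b := rfl

theorem newA_rr {V : Type} (A : V → V → Bool) (Y : Fin 4 → V → Bool) (i j : Fin 4) :
    newA A Y (Sum.inr i) (Sum.inr j) = B i j := rfl

theorem newY_l {V : Type} (Y : Fin 4 → V → Bool) (i : Fin 4) (a : V) : newY Y i (Sum.inl a) = Y i a := rfl

theorem newY_r {V : Type} (Y : Fin 4 → V → Bool) (i : Fin 4) (j : Fin 4) : newY Y i (Sum.inr j) = inY i j := rfl

variable {V : Type} [Fintype V] [DecidableEq V] {k : ℕ}

omit [DecidableEq V] in
theorem not_add (f : V → Bool) : ∑ a, (!(f a)).toNat + ∑ a, (f a).toNat = Fintype.card V := by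
  rw [← Finset.sum_add_distrib, Fintype.card, Finset.card_eq_sum_ones]
  apply Finset.sum_congr rfl
  intro a _
  cases f a <;> rfl

theorem card_link (C : Cfg k V) (i : Fin 4) :
    ∑ a, (link C.Y i a).toNat + ∑ j, (B i j).toNat = 2 * (k + 1) := by
  have h1 := C.cardY i
  have h2 := not_add (C.Y i)
  rw [C.card] at h2
  have h3 : ∀ i : Fin 4, ev i = true ∧ ∑ j, (B i j).toNat = 2 ∨ ev i = false ∧ ∑ j, (B i j).toNat = 1 := by
    decide
  rcases h3 i with ⟨h4, h5⟩ | ⟨h4, h5⟩
  · rw [h5]
    simp only [link, h4, cond_true]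
    omega
  · rw [h5]
    simp only [link, h4, cond_false]
    omega

theorem link_v (C : Cfg k V) (i : Fin 4) : link C.Y i C.v = !(ev i) := by
  unfold link
  rw [C.hv]
  cases ev i <;> rfl

theorem link_x (C : Cfg k V) (i : Fin 4) : link C.Y i C.x = ev i := by
  unfold link
  rw [C.hx]
  cases ev i <;> rfl

theorem mixed (C : Cfg k V) :
    ∑ i : Fin 4, ∑ a, (C.A C.v a && (!(ev i) && link C.Y i a)).toNat = 2 * k := by
  have hE : ∀ i, ev i = true → ∑ a, (C.A C.v a && (!(ev i) && link C.Y i a)).toNat = 0 := by
    intro i hi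
    apply Finset.sum_eq_zero
    intro a _
    rw [hi]
    cases C.A C.v a <;> rfl
  have hO : ∀ i, ev i = false → ∑ a, (C.A C.v a && (!(ev i) && link C.Y i a)).toNat +
      ∑ a, (C.A C.v a && C.Y i a).toNat = 2 * k := by
    intro i hi
    rw [← C.reg C.v, ← Finset.sum_add_distrib]
    apply Finset.sum_congr rfl
    intro a _
    unfold link
    rw [hi]
    cases C.A C.v a <;> cases C.Y i a <;> rfl
  have e0 := hE 0 rfl
  have e2 := hE 2 rfl
  have e1 := hO 1 rfl
  have e3 := hO 3 rfl
  have := C.dc
  rw [Fin.sum_univ_four, e0, e2]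
  omega

/-- the induction step -/
def next (hk : 1 ≤ k) (C : Cfg k V) : Cfg (k + 1) (V ⊕ Fin 4) where
  A := newA C.A C.Y
  P := Equiv.sumCongr C.P (Equiv.addRight 1)
  v := Sum.inl C.v
  x := Sum.inl C.x
  symm := by
    rintro (a | i) (b | j)
    · exact C.symm a b
    · rfl
    · rfl
    · exact (by decide : ∀ i j : Fin 4, B i j = B j i) i j
  irr := by
    rintro (a | i)
    · exact C.irr a
    · exact (by decide : ∀ i : Fin 4, B i i = false) i
  anti := by
    have hev : ∀ i : Fin 4, ev (i + 1) = !(ev i) := by decide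
    have hl : ∀ (i : Fin 4) (a : V), link C.Y (i + 1) (C.P a) = !(link C.Y i a) := by
      intro i a
      unfold link
      rw [C.rot, hev]
      cases ev i <;> cases C.Y i a <;> rfl
    rintro (a | i) (b | j) hab
    · exact C.anti a b (fun h => hab (by rw [h]))
    · exact hl j a
    · exact hl i b
    · have hij : i ≠ j := fun h => hab (by rw [h])
      exact (by decide : ∀ i j : Fin 4, i ≠ j → B (i + 1) (j + 1) = !(B i j)) i j hij
  card := by
    rw [Fintype.card_sum, C.card, Fintype.card_fin]
    ring
  reg := by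
    rintro (a | i)
    · rw [Fintype.sum_sum_type]
      simp only [newA_ll, newA_lr]
      rw [C.reg a, Fin.sum_univ_four]
      have h3 := C.bal a
      unfold link
      revert h3
      simp only [ev]
      generalize C.Y 0 a = b0
      generalize C.Y 1 a = b1
      generalize C.Y 2 a = b2
      generalize C.Y 3 a = b3
      intro h3
      have h4 : ∀ b0 b1 b2 b3 : Bool, b0.toNat + b2.toNat = b1.toNat + b3.toNat →
          (b0.toNat + (!b1).toNat + b2.toNat + (!b3).toNat) = 2 := by
        decide
      have h5 := h4 _ _ _ _ h3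
      show 2 * k + (b0.toNat + (!b1).toNat + b2.toNat + (!b3).toNat) = 2 * (k + 1)
      omega
    · rw [Fintype.sum_sum_type]
      exact card_link C i
  tri := by
    rw [Fintype.sum_sum_type]
    simp only [Fintype.sum_sum_type, newA_ll, newA_lr, newA_rl, newA_rr]
    simp only [Finset.sum_add_distrib]
    rw [C.tri]
    have h1 : ∑ i : Fin 4, ∑ j : Fin 4, (link C.Y i C.v && (link C.Y j C.v && B i j)).toNat = 0 := by
      simp only [link_v]
      decide
    have h2 : ∑ i : Fin 4, ∑ a : V, (link C.Y i C.v && (C.A C.v a && link C.Y i a)).toNat = 2 * k := by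
      rw [← mixed C]
      apply Finset.sum_congr rfl
      intro i _
      apply Finset.sum_congr rfl
      intro a _
      rw [link_v]
      cases C.A C.v a <;> cases ev i <;> rfl
    have h3 : ∑ a : V, ∑ i : Fin 4, (C.A C.v a && (link C.Y i C.v && link C.Y i a)).toNat = 2 * k := by
      rw [← mixed C, Finset.sum_comm]
      apply Finset.sum_congr rfl
      intro i _
      apply Finset.sum_congr rfl
      intro a _
      rw [link_v]
    rw [h1, h2, h3]
    obtain ⟨m, rfl⟩ : ∃ m, k = m + 1 := ⟨k - 1, by omega⟩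
    simp only [Nat.add_sub_cancel]
    ring
  adj := C.adj
  noc := by
    rintro (z | i) hz
    · exact C.noc z hz
    · have h1 : link C.Y i C.v = true := hz
      rw [link_v] at h1
      have h2 : link C.Y i C.x = false := by
        rw [link_x]
        revert h1
        cases ev i <;> decide
      exact h2
  coc := by
    rintro (y | i) hy hvy
    · obtain ⟨z, h1, h2, h3, h4⟩ := C.coc y (fun h => hy (by rw [h])) hvy
      exact ⟨Sum.inl z, fun h => h1 (Sum.inl_injective h), fun h => h2 (Sum.inl_injective h), h3, h4⟩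
    · obtain ⟨z, h1, h2, h3, h4⟩ := C.nz
      refine ⟨Sum.inl z, fun h => h1 (Sum.inl_injective h), Sum.inl_ne_inr, h2, ?_⟩
      have h5 : link C.Y i C.v = false := hvy
      rw [link_v] at h5
      have h6 : i = 0 ∨ i = 2 :=
        (by decide : ∀ i : Fin 4, (!(ev i)) = false → i = 0 ∨ i = 2) i h5
      have h7 : link C.Y i z = false := by
        rcases h6 with rfl | rfl
        · unfold link
          rw [h3]
          rfl
        · unfold link
          rw [h4]
          rfl
      exact h7
  Y := newY C.Y
  rot := by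
    rintro i (a | j)
    · exact C.rot i a
    · exact (by decide : ∀ i j : Fin 4, inY (i + 1) (j + 1) = inY i j) i j
  cardY := by
    intro i
    rw [Fintype.sum_sum_type]
    simp only [newY_l, newY_r]
    rw [C.cardY i]
    have h2 : ∀ i : Fin 4, ∑ j, (inY i j).toNat = 2 := by decide
    rw [h2]
    ring
  bal := by
    rintro (a | j)
    · exact C.bal a
    · exact (by decide : ∀ j : Fin 4, (inY 0 j).toNat + (inY 2 j).toNat =
        (inY 1 j).toNat + (inY 3 j).toNat) j
  hv := C.hv
  hx := C.hx
  nz := by
    obtain ⟨z, h1, h2, h3, h4⟩ := C.nz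
    exact ⟨Sum.inl z, fun h => h1 (Sum.inl_injective h), h2, h3, h4⟩
  dc := by
    have h := C.dc
    rw [Fintype.sum_sum_type, Fintype.sum_sum_type]
    simp only [newA_ll, newA_lr, newY_l, newY_r, link_v]
    have h1 : ∑ j : Fin 4, (!(ev j) && inY 1 j).toNat = 1 := by decide
    have h3 : ∑ j : Fin 4, (!(ev j) && inY 3 j).toNat = 1 := by decide
    rw [h1, h3]
    omega

/-- rows of a matrix given by bit masks -/
def ofMask {n : ℕ} (m : Fin n → ℕ) (a b : Fin n) : Bool := (m a).testBit b

/-- the graph with nine vertices -/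
def core2 : Core 2 (Fin 9) where
  A := ofMask ![450, 105, 312, 150, 204, 326, 51, 281, 165]
  P := ⟨![1, 2, 3, 0, 5, 6, 7, 4, 8], ![3, 0, 1, 2, 7, 4, 5, 6, 8], by decide, by decide⟩
  v := 1
  x := 3
  symm := by decide
  irr := by decide
  anti := by decide
  card := by decide
  reg := by decide
  tri := by decide
  adj := by decide
  noc := by decide
  coc := by decide

/-- the graph with thirteen vertices -/
def cfg3 : Cfg 3 (Fin 13) where
  A := ofMask ![7336, 1708, 5026, 2467, 7776, 543, 7056, 2127, 5708, 374, 6419, 1241, 1365]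
  P := ⟨![1, 2, 3, 0, 5, 6, 7, 4, 9, 10, 11, 8, 12], ![3, 0, 1, 2, 7, 4, 5, 6, 11, 8, 9, 10, 12],
    by decide, by decide⟩
  v := 1
  x := 10
  symm := by decide
  irr := by decide
  anti := by decide
  card := by decide
  reg := by decide
  tri := by decide
  adj := by decide
  noc := by decide
  coc := by decide
  Y := ![fun a => (3888 : ℕ).testBit a, fun a => (3936 : ℕ).testBit a, fun a => (4032 : ℕ).testBit a,
    fun a => (3984 : ℕ).testBit a]
  rot := by decide
  cardY := by decide
  bal := by decide
  hv := by decide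
  hx := by decide
  nz := by decide
  dc := by decide

/-- the configurations for all `k ≥ 3` -/
theorem exists_cfg (m : ℕ) : ∃ (V : Type) (_ : Fintype V) (_ : DecidableEq V), Nonempty (Cfg (m + 3) V) := by
  induction m with
  | zero => exact ⟨Fin 13, inferInstance, inferInstance, ⟨cfg3⟩⟩
  | succ m ih =>
    obtain ⟨V, h1, h2, ⟨C⟩⟩ := ih
    exact ⟨V ⊕ Fin 4, inferInstance, inferInstance, ⟨next (by omega) C⟩⟩

theorem exists_core (k : ℕ) (hk : 2 ≤ k) :
    ∃ (V : Type) (_ : Fintype V) (_ : DecidableEq V), Nonempty (Core k V) := by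
  rcases Nat.lt_or_ge k 3 with h | h
  · obtain rfl : k = 2 := by omega
    exact ⟨Fin 9, inferInstance, inferInstance, ⟨core2⟩⟩
  · obtain ⟨m, rfl⟩ : ∃ m, k = m + 3 := ⟨k - 3, by omega⟩
    obtain ⟨V, h1, h2, ⟨C⟩⟩ := exists_cfg m
    exact ⟨V, h1, h2, ⟨C.toCore⟩⟩

/-- the graph -/
def graph (C : Core k V) : SimpleGraph V where
  Adj a b := C.A a b = true
  symm := ⟨fun a b h => by rw [C.symm]; exact h⟩
  loopless := ⟨fun a h => by rw [C.irr] at h; exact absurd h (by decide)⟩

theorem graph_adj (C : Core k V) (a b : V) : (graph C).Adj a b ↔ C.A a b = true := Iff.rfl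

theorem sum_toNat {ι : Type*} [Fintype ι] (f : ι → Bool) :
    ∑ a, (f a).toNat = {a | f a = true}.ncard := by
  classical
  rw [Set.ncard_eq_toFinset_card']
  rw [Set.toFinset_ofPred, Finset.card_filter]
  apply Finset.sum_congr rfl
  intro a _
  cases f a <;> rfl

/-- the number of triangles of `G` containing `v` -/
noncomputable def triangles {V : Type} (G : SimpleGraph V) (v : V) : ℕ :=
  {t : Finset V | G.IsNClique 3 t ∧ v ∈ t}.ncard

theorem triangles_eq (C : Core k V) : triangles (graph C) C.v = k * (k - 1) := by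
  classical
  have h1 : ({p : V × V | (C.A C.v p.1 && (C.A C.v p.2 && C.A p.1 p.2)) = true} : Set (V × V)).ncard =
      2 * (k * (k - 1)) := by
    rw [← sum_toNat, Fintype.sum_prod_type]
    exact C.tri
  let S : Finset (V × V) := univ.filter fun p => C.A C.v p.1 = true ∧ C.A C.v p.2 = true ∧ C.A p.1 p.2 = true
  have hS : S.card = 2 * (k * (k - 1)) := by
    rw [← h1, Set.ncard_eq_toFinset_card']
    congr 1
    ext p
    simp [S]
  let T : Finset (Finset V) := univ.filter fun t => (graph C).IsNClique 3 t ∧ C.v ∈ t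
  have hT : triangles (graph C) C.v = T.card := by
    unfold triangles
    rw [Set.ncard_eq_toFinset_card']
    congr 1
    ext t
    simp [T]
  have hne : ∀ a b, C.A a b = true → a ≠ b := by
    rintro a b h rfl
    rw [C.irr] at h
    exact absurd h (by decide)
  have hmaps : ∀ p ∈ S, ({C.v, p.1, p.2} : Finset V) ∈ T := by
    intro p hp
    rw [Finset.mem_filter] at hp ⊢
    obtain ⟨_, h2, h3, h4⟩ := hp
    refine ⟨Finset.mem_univ _, ?_, by simp⟩
    rw [SimpleGraph.is3Clique_triple_iff]
    exact ⟨h2, h3, h4⟩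
  have hcard := Finset.card_eq_sum_card_fiberwise hmaps
  have hfib : ∀ t ∈ T, (S.filter fun p => ({C.v, p.1, p.2} : Finset V) = t).card = 2 := by
    intro t ht
    rw [Finset.mem_filter] at ht
    obtain ⟨_, ht1, ht2⟩ := ht
    obtain ⟨a, b, hab, rfl⟩ : ∃ a b, (C.A C.v a = true ∧ C.A C.v b = true ∧ C.A a b = true) ∧ t = {C.v, a, b} := by
      obtain ⟨x, y, z, h1, h2, h3, rfl⟩ := SimpleGraph.is3Clique_iff.1 ht1
      simp only [Finset.mem_insert, Finset.mem_singleton] at ht2
      rcases ht2 with h | h | h
      · refine ⟨y, z, ⟨?_, ?_, h3⟩, by rw [h]⟩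
        · rw [h]; exact h1
        · rw [h]; exact h2
      · refine ⟨x, z, ⟨?_, ?_, h2⟩, ?_⟩
        · rw [h]; exact h1.symm
        · rw [h]; exact h3
        · rw [h]
          ext u
          simp only [Finset.mem_insert, Finset.mem_singleton]
          tauto
      · refine ⟨x, y, ⟨?_, ?_, h1⟩, ?_⟩
        · rw [h]; exact h2.symm
        · rw [h]; exact h3.symm
        · rw [h]
          ext u
          simp only [Finset.mem_insert, Finset.mem_singleton]
          tauto
    obtain ⟨ha, hb, hab⟩ := hab
    have hva := hne _ _ ha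
    have hvb := hne _ _ hb
    have hab' := hne _ _ hab
    have : (S.filter fun p => ({C.v, p.1, p.2} : Finset V) = {C.v, a, b}) = {(a, b), (b, a)} := by
      ext ⟨p, q⟩
      rw [Finset.mem_filter, Finset.mem_filter]
      simp only [Finset.mem_univ, true_and, Finset.mem_insert, Finset.mem_singleton, Prod.mk.injEq]
      constructor
      · rintro ⟨⟨h2, h3, h4⟩, h5⟩
        have hvp := hne _ _ h2
        have hvq := hne _ _ h3
        have hpq := hne _ _ h4
        have hp : p ∈ ({C.v, a, b} : Finset V) := by rw [← h5]; simp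
        have hq : q ∈ ({C.v, a, b} : Finset V) := by rw [← h5]; simp
        simp only [Finset.mem_insert, Finset.mem_singleton] at hp hq
        rcases hp with h | h | h
        · exact absurd h.symm hvp
        · rcases hq with h' | h' | h'
          · exact absurd h'.symm hvq
          · exact absurd (h.trans h'.symm) hpq
          · exact Or.inl ⟨h, h'⟩
        · rcases hq with h' | h' | h'
          · exact absurd h'.symm hvq
          · exact Or.inr ⟨h, h'⟩
          · exact absurd (h.trans h'.symm) hpq
      · rintro (⟨rfl, rfl⟩ | ⟨rfl, rfl⟩)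
        · exact ⟨⟨ha, hb, hab⟩, rfl⟩
        · refine ⟨⟨hb, ha, by rw [C.symm]; exact hab⟩, ?_⟩
          ext u
          simp only [Finset.mem_insert, Finset.mem_singleton]
          tauto
    rw [this, Finset.card_pair]
    intro h
    exact hab' (Prod.mk.inj h).1
  rw [Finset.sum_congr rfl hfib, Finset.sum_const, smul_eq_mul, hS] at hcard
  rw [hT]
  omega

/-- For every `k ≥ 2` there is a regular self-complementary graph `G` on `4 k + 1` vertices and a vertex `v`
of `G` which lies in exactly `k (k - 1)` triangles, but which is not fixed by any isomorphism from `G` to its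
complement. -/
theorem result (k : ℕ) (hk : 2 ≤ k) :
    ∃ (V : Type) (_ : Fintype V) (G : SimpleGraph V) (v : V), Fintype.card V = 4 * k + 1 ∧
      Nonempty (G ≃g Gᶜ) ∧ (∀ u, (G.neighborSet u).ncard = 2 * k) ∧ triangles G v = k * (k - 1) ∧
      ¬ ∃ P : G ≃g Gᶜ, P v = v := by
  obtain ⟨V, h1, h2, ⟨C⟩⟩ := exists_core k hk
  have hne : ∀ a b, C.A a b = true → a ≠ b := by
    rintro a b h rfl
    rw [C.irr] at h
    exact absurd h (by decide)
  refine ⟨V, h1, graph C, C.v, C.card, ⟨⟨C.P, ?_⟩⟩, ?_, triangles_eq C, ?_⟩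
  · intro a b
    rw [SimpleGraph.compl_adj, graph_adj, graph_adj]
    constructor
    · rintro ⟨h3, h4⟩
      have h5 : a ≠ b := fun h => h3 (by rw [h])
      rw [C.anti a b h5] at h4
      simpa using h4
    · intro h3
      have h5 := hne _ _ h3
      refine ⟨fun h => h5 (C.P.injective h), ?_⟩
      rw [C.anti a b h5, h3]
      decide
  · intro u
    rw [← C.reg u, sum_toNat]
    rfl
  · rintro ⟨P, hP⟩
    have hx : (graph C).Adj C.v C.x := C.adj
    have h3 : (graph C)ᶜ.Adj (P C.v) (P C.x) := (P.map_adj_iff).2 hx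
    rw [hP, SimpleGraph.compl_adj, graph_adj] at h3
    obtain ⟨h4, h5⟩ := h3
    have h5' : C.A C.v (P C.x) = false := by
      revert h5
      cases C.A C.v (P C.x) <;> simp
    obtain ⟨z, hz1, hz2, hz3, hz4⟩ := C.coc (P C.x) (Ne.symm h4) h5'
    obtain ⟨w, rfl⟩ := P.surjective z
    have h6 : (graph C).Adj C.v w := by
      rw [← P.map_adj_iff, hP, SimpleGraph.compl_adj, graph_adj]
      exact ⟨Ne.symm hz1, by rw [hz3]; decide⟩
    have h7 : (graph C).Adj C.x w := by
      rw [← P.map_adj_iff, SimpleGraph.compl_adj, graph_adj]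
      exact ⟨Ne.symm hz2, by rw [hz4]; decide⟩
    have h8 := C.noc w h6
    rw [graph_adj, h8] at h7
    exact absurd h7 (by decide)

end Pool.Agent.Results.MP_b6be33_co.EveryOrder
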